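import Pool.Agent.Q325.Surj

/-!
# Surjectivity of integer polynomial maps `ℝⁿ → ℝᵐ` is `∀∃ℝ`-complete

Idea of the hardness proof: the map `(p, q, s) ↦ (1 + p q, q + s (1 + p q))` has the punctured
plane `ℝ² ∖ {0}` as its image. If `F ≥ 0` is the sum of the squares of the constraints of a system
and of the square of one further variable, then the map
`(x, y, p, q, s) ↦ (x, F (1 + p q), F (q + s (1 + p q)))` is onto if and only if for every `x` the
system has a solution `y`.
-/

namespace Pool.Agent.Results.MP_e38cae_lc.FullSpaceComplete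

open Pool.Agent.NPC Pool.Agent.NPC.ER Pool.Agent.NPC.ER.Q325A Pool.Agent.NPC.ER.Q325S

/-- The surjectivity problem for integer polynomial maps `ℝⁿ → ℝᵐ` is `∀∃ℝ`-complete, and it is
`∀∃ℝ`-hard already for polynomials of total degree at most `7`. -/
theorem result : AERComplete (lang SurjectiveMap) ∧ AERHard (lang (SurjectiveMapDeg 7)) :=
  ⟨⟨surjectiveMap_inAER, surjectiveMap_hard⟩, surjectiveMapDeg_hard⟩

end Pool.Agent.Results.MP_e38cae_lc.FullSpaceComplete
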